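import Pool.Agent.H22.CDI.Path
import Pool.Agent.H22.CDI.Canon
import Pool.Agent.H52.CD.All

/-!
# The complete cd-index of a Bruhat interval has nonnegative coefficients: definitions of the statement
-/

set_option autoImplicit false

open Classical

namespace Pool.H51.MV.CompleteCdIndex

variable {B W : Type} [Group W] {M : CoxeterMatrix B} (cs : CoxeterSystem M W)

/-- The set `T` of the reflections of the Coxeter system. -/
abbrev Refl : Type := {t : W // cs.IsReflection t}

/-- The canonical generators (Dyer) of a reflection subgroup `H`: the reflections `x` in `H` such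
that `x` itself is the only reflection `t` in `H` with `ℓ(t x) < ℓ(x)`. -/
def canonicalGenerators (H : Subgroup W) : Set W :=
  {x | x ∈ H ∧ cs.IsReflection x ∧
    ∀ t ∈ H, cs.IsReflection t → cs.length (t * x) < cs.length x → t = x}

/-- A dihedral reflection subgroup: generated by two different reflections. -/
def IsDihedral (H : Subgroup W) : Prop :=
  ∃ r s : W, cs.IsReflection r ∧ cs.IsReflection s ∧ r ≠ s ∧ H = Subgroup.closure {r, s}

theorem isReflection_alt (a b : Refl cs) (i : ℕ) : cs.IsReflection ((a.1 * b.1) ^ i * a.1) := by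
  induction i generalizing a b with
  | zero =>
    rw [pow_zero, one_mul]
    exact a.2
  | succ i ih =>
    have h := (ih b a).conj a.1
    have e : a.1 * ((b.1 * a.1) ^ i * b.1) * a.1⁻¹ = (a.1 * b.1) ^ (i + 1) * a.1 := by
      rw [a.2.inv, pow_succ]
      have h1 : ∀ i : ℕ, a.1 * (b.1 * a.1) ^ i = (a.1 * b.1) ^ i * a.1 := by
        intro i
        induction i with
        | zero => rw [pow_zero, pow_zero, mul_one, one_mul]
        | succ i ih => rw [pow_succ, pow_succ, ← mul_assoc, ih]; simp only [mul_assoc]
      rw [← mul_assoc, h1]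
      simp only [mul_assoc]
    rw [e] at h
    exact h

/-- The reflection `(a b)^i a = a b a ⋯ b a` with `2 i + 1` factors. -/
def alt (a b : Refl cs) (i : ℕ) : Refl cs := ⟨(a.1 * b.1) ^ i * a.1, isReflection_alt cs a b i⟩

/-- The reflections of the dihedral group generated by `a` and `b` appear in the order
`a ≺ aba ≺ ababa ≺ ⋯ ≺ babab ≺ bab ≺ b`. If `a b` has finite order `m` the reflections of this
group are `alt a b 0 = a, alt a b 1 = aba, …, alt a b (m - 1) = b`; if `a b` has infinite order they
are `alt a b i` and `alt b a i` for `i = 0, 1, 2, …`. -/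
def InOrder (lt : Refl cs → Refl cs → Prop) (a b : Refl cs) : Prop :=
  (orderOf (a.1 * b.1) ≠ 0 →
    ∀ i j : ℕ, i < j → j < orderOf (a.1 * b.1) → lt (alt cs a b i) (alt cs a b j)) ∧
  (orderOf (a.1 * b.1) = 0 →
    (∀ i j : ℕ, i < j → lt (alt cs a b i) (alt cs a b j)) ∧
    (∀ i j : ℕ, i < j → lt (alt cs b a j) (alt cs b a i)) ∧
    (∀ i j : ℕ, lt (alt cs a b i) (alt cs b a j)))

/-- A reflection ordering (Dyer): a strict total order `≺` on the set of reflections such that for
every dihedral reflection subgroup `H` with canonical generators `a`, `b` the reflections of `H`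
appear in the order `a ≺ aba ≺ ⋯ ≺ bab ≺ b` or in the reverse order `b ≺ bab ≺ ⋯ ≺ aba ≺ a`. -/
def IsReflectionOrdering (lt : Refl cs → Refl cs → Prop) : Prop :=
  (∀ t, ¬ lt t t) ∧ (∀ r s t, lt r s → lt s t → lt r t) ∧ (∀ s t, lt s t ∨ s = t ∨ lt t s) ∧
  ∀ H : Subgroup W, IsDihedral cs H → ∀ a b : Refl cs, a ≠ b →
    canonicalGenerators cs H = {a.1, b.1} → InOrder cs lt a b ∨ InOrder cs lt b a

/-- Noncommutative polynomials over `ℤ` in two variables: finite `ℤ`-linear combinations of words
in the letters `0` and `1`. The coefficient of the word `w` in `f` is `f.coeff w`. -/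
abbrev NC : Type := MonoidAlgebra ℤ (FreeMonoid (Fin 2))

/-- The two variables. They are called `a = X 0` and `b = X 1` in the sum over the paths, and
`c = X 0` and `d = X 1` in the cd-index. -/
noncomputable def X (i : Fin 2) : NC := MonoidAlgebra.single (FreeMonoid.of i) 1

/-- The substitution `Φ(c, d) ↦ Φ(a + b, a b + b a)`. -/
noncomputable def cdSubst : NC →ₐ[ℤ] NC :=
  MonoidAlgebra.lift ℤ NC (FreeMonoid (Fin 2))
    (FreeMonoid.lift ![X 0 + X 1, X 0 * X 1 + X 1 * X 0])

/-- `[t₁, …, t_k]` is the list of the labels of a directed path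
`u → u t₁ → u t₁ t₂ → ⋯ → u t₁ ⋯ t_k = v` in the Bruhat graph: the length increases at each step. -/
def IsPath : W → List (Refl cs) → W → Prop
  | u, [], v => u = v
  | u, t :: l, v => cs.length u < cs.length (u * t.1) ∧ IsPath (u * t.1) l v

/-- The monomial `y₁ ⋯ y_(k-1)` of a path with labels `t₁, …, t_k`: `y_j = a` if `t_j ≺ t_(j+1)`
and `y_j = b` otherwise. (Two consecutive labels are never equal.) -/
noncomputable def pathMonomial (lt : Refl cs → Refl cs → Prop) : List (Refl cs) → NC
  | [] => 1
  | [_] => 1
  | s :: t :: l => (if lt s t then X 0 else X 1) * pathMonomial lt (t :: l)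

/-- The directed paths from `u` to `v` with at least one edge, given by their labels. -/
def paths (u v : W) : Set (List (Refl cs)) := {l | l ≠ [] ∧ IsPath cs u l v}

/-- The sum of the monomials of all directed paths from `u` to `v`. -/
noncomputable def psi (lt : Refl cs → Refl cs → Prop) (u v : W) : NC :=
  ∑ᶠ l ∈ paths cs u v, pathMonomial cs lt l

end Pool.H51.MV.CompleteCdIndex
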