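import Pool.Agent.H22.CDI.Path
import Pool.Agent.H22.CDI.Canon
import Pool.Agent.H52.CD.All
import Pool.Agent.H51.MV.CompleteCdIndexDefs

/-!
# The complete cd-index of a Bruhat interval has nonnegative coefficients: the proof
-/

set_option autoImplicit false

open Classical

namespace Pool.H51.MV.CompleteCdIndex

variable {B W : Type} [Group W] {M : CoxeterMatrix B} (cs : CoxeterSystem M W)

section proof

variable {cs}

theorem isPath_iff (u : W) (l : List (Refl cs)) (v : W) :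
    IsPath cs u l v ↔ Pool.Agent.H22.CDI.IsPath cs u l v := by
  induction l generalizing u with
  | nil => exact Iff.rfl
  | cons t l ih => exact and_congr_right (fun _ => ih _)

theorem pathMonomial_eq (lt : Refl cs → Refl cs → Prop) (l : List (Refl cs)) :
    pathMonomial cs lt l = Pool.Agent.H22.CDI.word cs lt l := by
  induction l with
  | nil => rfl
  | cons s l ih =>
    rcases l with _ | ⟨t, l⟩
    · rfl
    · change (if lt s t then X 0 else X 1) * pathMonomial cs lt (t :: l) =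
        (if lt s t then X 0 else X 1) * Pool.Agent.H22.CDI.word cs lt (t :: l)
      rw [ih]

/-- a total order of the group which extends a total order of the reflections -/
def extOrd (lt : Refl cs → Refl cs → Prop) (x y : W) : Prop :=
  (∃ (hx : cs.IsReflection x) (hy : cs.IsReflection y), lt ⟨x, hx⟩ ⟨y, hy⟩) ∨
  (cs.IsReflection x ∧ ¬ cs.IsReflection y) ∨
  (¬ cs.IsReflection x ∧ ¬ cs.IsReflection y ∧ WellOrderingRel x y)

theorem extOrd_iff (lt : Refl cs → Refl cs → Prop) (s t : Refl cs) : extOrd lt s.1 t.1 ↔ lt s t := by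
  constructor
  · rintro (⟨_, _, h⟩ | ⟨_, h⟩ | ⟨h, _⟩)
    · exact h
    · exact absurd t.2 h
    · exact absurd s.2 h
  · intro h
    exact Or.inl ⟨s.2, t.2, h⟩

theorem extOrd_irrefl {lt : Refl cs → Refl cs → Prop} (h : ∀ t, ¬ lt t t) (x : W) : ¬ extOrd lt x x := by
  rintro (⟨hx, _, h1⟩ | ⟨h1, h2⟩ | ⟨_, _, h1⟩)
  · exact h _ h1
  · exact h2 h1
  · exact irrefl_of WellOrderingRel x h1

theorem extOrd_trans {lt : Refl cs → Refl cs → Prop} (h : ∀ r s t, lt r s → lt s t → lt r t)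
    (x y z : W) (h1 : extOrd lt x y) (h2 : extOrd lt y z) : extOrd lt x z := by
  rcases h1 with ⟨hx, hy, h1⟩ | ⟨hx, hy⟩ | ⟨hx, hy, h1⟩
  · rcases h2 with ⟨_, hz, h2⟩ | ⟨_, hz⟩ | ⟨hy', _⟩
    · exact Or.inl ⟨hx, hz, h _ _ _ h1 h2⟩
    · exact Or.inr (Or.inl ⟨hx, hz⟩)
    · exact absurd hy hy'
  · rcases h2 with ⟨hy', _⟩ | ⟨hy', _⟩ | ⟨_, hz, _⟩
    · exact absurd hy' hy
    · exact absurd hy' hy
    · exact Or.inr (Or.inl ⟨hx, hz⟩)
  · rcases h2 with ⟨hy', _⟩ | ⟨hy', _⟩ | ⟨_, hz, h2⟩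
    · exact absurd hy' hy
    · exact absurd hy' hy
    · exact Or.inr (Or.inr ⟨hx, hz, trans_of WellOrderingRel h1 h2⟩)

theorem extOrd_total {lt : Refl cs → Refl cs → Prop} (h : ∀ s t, lt s t ∨ s = t ∨ lt t s) (x y : W) :
    extOrd lt x y ∨ x = y ∨ extOrd lt y x := by
  by_cases hx : cs.IsReflection x
  · by_cases hy : cs.IsReflection y
    · rcases h ⟨x, hx⟩ ⟨y, hy⟩ with h1 | h1 | h1
      · exact Or.inl (Or.inl ⟨hx, hy, h1⟩)
      · exact Or.inr (Or.inl (congrArg Subtype.val h1))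
      · exact Or.inr (Or.inr (Or.inl ⟨hy, hx, h1⟩))
    · exact Or.inl (Or.inr (Or.inl ⟨hx, hy⟩))
  · by_cases hy : cs.IsReflection y
    · exact Or.inr (Or.inr (Or.inr (Or.inl ⟨hy, hx⟩)))
    · rcases trichotomous_of WellOrderingRel x y with h1 | h1 | h1
      · exact Or.inl (Or.inr (Or.inr ⟨hx, hy, h1⟩))
      · exact Or.inr (Or.inl h1)
      · exact Or.inr (Or.inr (Or.inr (Or.inr ⟨hy, hx, h1⟩)))

open Pool.Agent.H52.CD in
theorem refOrd {lt : Refl cs → Refl cs → Prop} (h : IsReflectionOrdering cs lt) :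
    RefOrd cs (extOrd lt) := by
  obtain ⟨hirr, htr, htot, hdi⟩ := h
  intro α β hα hβ hne h1 h2 hlt
  obtain ⟨G⟩ := cd_geom B W M cs
  obtain ⟨Rt⟩ := root B W M cs G
  have hcan : canonicalGenerators cs (Subgroup.closure {α, β}) = {α, β} := by
    ext c
    constructor
    · rintro ⟨hc, hcr, h3⟩
      rcases Pool.Agent.H22.CDI.canon_pair cd_sign Rt hα hβ hne h1 h2 hc hcr h3 with h4 | h4
      · exact Or.inl h4
      · exact Or.inr h4
    · rintro (rfl | rfl)
      · exact ⟨Subgroup.subset_closure (Or.inl rfl), hα, h1⟩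
      · exact ⟨Subgroup.subset_closure (Or.inr rfl), hβ, h2⟩
  have hlt' : lt ⟨α, hα⟩ ⟨β, hβ⟩ := (extOrd_iff lt ⟨α, hα⟩ ⟨β, hβ⟩).1 hlt
  have key := hdi (Subgroup.closure {α, β}) ⟨α, β, hα, hβ, hne, rfl⟩ ⟨α, hα⟩ ⟨β, hβ⟩
    (fun e => hne (congrArg Subtype.val e)) hcan
  have key' : InOrder cs lt ⟨α, hα⟩ ⟨β, hβ⟩ := by
    rcases key with h3 | h3
    · exact h3
    · exfalso
      refine hirr _ (htr _ _ _ hlt' ?_)
      have e0 : alt cs ⟨β, hβ⟩ ⟨α, hα⟩ 0 = ⟨β, hβ⟩ := by
        refine Subtype.ext ?_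
        change (β * α) ^ 0 * β = β
        rw [pow_zero, one_mul]
      by_cases hm : orderOf (β * α) = 0
      · have h4 := (h3.2 hm).2.2 0 0
        have e1 : alt cs ⟨α, hα⟩ ⟨β, hβ⟩ 0 = ⟨α, hα⟩ := by
          refine Subtype.ext ?_
          change (α * β) ^ 0 * α = α
          rw [pow_zero, one_mul]
        rw [e0, e1] at h4
        exact h4
      · have hm1 : orderOf (β * α) ≠ 1 := by
          rw [Ne, orderOf_eq_one_iff]
          intro h5
          apply hne
          have h6 : β * α * α = 1 * α := by rw [h5]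
          rw [mul_assoc, hα.mul_self, mul_one, one_mul] at h6
          exact h6.symm
        have h4 := h3.1 hm 0 (orderOf (β * α) - 1) (by omega) (by
          change orderOf (β * α) - 1 < orderOf (β * α)
          omega)
        have e1 : alt cs ⟨β, hβ⟩ ⟨α, hα⟩ (orderOf (β * α) - 1) = ⟨α, hα⟩ := by
          refine Subtype.ext ?_
          change (β * α) ^ (orderOf (β * α) - 1) * β = α
          have h5 : (β * α) ^ (orderOf (β * α) - 1) * (β * α) = 1 := by
            rw [← pow_succ, Nat.sub_add_cancel (by omega), pow_orderOf_eq_one]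
          rw [← mul_assoc] at h5
          have h6 : (β * α) ^ (orderOf (β * α) - 1) * β * α * α = 1 * α := by rw [h5]
          rw [mul_assoc, hα.mul_self, mul_one, one_mul] at h6
          exact h6
        rw [e0, e1] at h4
        exact h4
  refine ⟨fun h3 i j hij hj => ?_, fun h3 => ⟨fun i j hij => ?_, fun i j hij => ?_, fun i j => ?_⟩⟩
  · exact (extOrd_iff lt _ _).2 (key'.1 h3 i j hij hj)
  · exact (extOrd_iff lt _ _).2 ((key'.2 h3).1 i j hij)
  · exact (extOrd_iff lt _ _).2 ((key'.2 h3).2.1 i j hij)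
  · exact (extOrd_iff lt _ _).2 ((key'.2 h3).2.2 i j)

end proof

open Pool.Agent.H52.CD in
/-- For all `u`, `v` in any Coxeter group: there are finitely many directed paths from `u` to `v` in
the Bruhat graph, and there is a noncommutative polynomial `Φ` in `c`, `d` with nonnegative
coefficients which, for every reflection ordering, is the unique one with
`Φ(a + b, a b + b a) = ψ_(u,v)(a, b)`: it is the complete cd-index of `(u, v)`. -/
theorem result {B W : Type} [Group W] {M : CoxeterMatrix B} (cs : CoxeterSystem M W) (u v : W) :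
    (paths cs u v).Finite ∧
    ∃ Φ : NC, (∀ w : FreeMonoid (Fin 2), 0 ≤ Φ.coeff w) ∧
      ∀ lt : Refl cs → Refl cs → Prop, IsReflectionOrdering cs lt →
        cdSubst Φ = psi cs lt u v ∧ ∀ Φ' : NC, cdSubst Φ' = psi cs lt u v → Φ' = Φ := by
  obtain ⟨G⟩ := cd_geom B W M cs
  obtain ⟨Rt⟩ := root B W M cs G
  obtain ⟨Mo⟩ := modl B W M cs G Rt
  have hpaths : paths cs u v =
      {l : List (Refl cs) | l ≠ [] ∧ Pool.Agent.H22.CDI.IsPath cs u l v} := by
    ext l
    exact and_congr_right (fun _ => isPath_iff u l v)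
  have hpsi : ∀ lt : Refl cs → Refl cs → Prop,
      psi cs lt u v = Ab Mo.Y lt (X 0) (X 1) u Set.univ v := by
    intro lt
    rw [psi, hpaths]
    simp only [pathMonomial_eq]
    exact (Pool.Agent.H22.CDI.finsum_path lt Mo.Y Mo.act Mo.memN u v).2
  let mkO : ∀ lt : Refl cs → Refl cs → Prop, IsReflectionOrdering cs lt → RO Mo.D := fun lt h =>
    { lt := lt
      irrefl := h.1
      trans := fun {a b c} h1 h2 => h.2.1 a b c h1 h2
      total := h.2.2.1
      btw := fun a b t x y hx hy hne e => by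
        rw [Mo.root, Mo.root, Mo.root] at e
        have e1 := congrArg Prod.fst e
        have e2 := dihg B W M cs G Rt (extOrd lt) (extOrd_irrefl h.1) (extOrd_trans h.2.1)
          (extOrd_total h.2.2.1) (refOrd h) a b t x y hx hy hne (by simpa [iv] using e1)
        simpa only [extOrd_iff] using e2 }
  have hAb : ∀ (lt : Refl cs → Refl cs → Prop) (h : IsReflectionOrdering cs lt),
      psi cs lt u v = Ph Mo.Y (mkO lt h).lt (X 0 + X 1) (X 0 * X 1 + X 1 * X 0) u v := by
    intro lt h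
    rw [hpsi]
    exact abcd W _ _ Mo.Y Mo.D NC Pool.Agent.H22.CDI.torsion (mkO lt h) (X 0) (X 1) u v
  refine ⟨?_, ?_⟩
  · rw [hpaths]
    exact (Pool.Agent.H22.CDI.finsum_path (fun _ _ => False) Mo.Y Mo.act Mo.memN u v).1
  by_cases hex : ∃ lt : Refl cs → Refl cs → Prop, IsReflectionOrdering cs lt
  · obtain ⟨lt₀, h₀⟩ := hex
    have hpos := pos_all symm cd_genx cd_lowt posi W _ _ Mo.Y Mo.D NC Pool.Agent.H22.CDI.torsion
      (X 0 + X 1) (X 0 * X 1 + X 1 * X 0) Pool.Agent.H22.CDI.posCone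
      Pool.Agent.H22.CDI.one_mem_posCone (fun p hp => Pool.Agent.H22.CDI.mul_c_mem hp)
      (fun p hp => Pool.Agent.H22.CDI.mul_d_mem hp) (mkO lt₀ h₀) u v
    obtain ⟨Φ, h1, h2⟩ := Pool.Agent.H22.CDI.mem_posCone.1 hpos
    refine ⟨Φ, h1, ?_⟩
    intro lt h
    have h3 : cdSubst Φ = psi cs lt u v := by
      rw [hAb lt h, (symm W _ _ Mo.Y Mo.D NC Pool.Agent.H22.CDI.torsion (X 0 + X 1)
        (X 0 * X 1 + X 1 * X 0) u v).1 (mkO lt h) (mkO lt₀ h₀)]
      exact h2
    refine ⟨h3, ?_⟩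
    intro Φ' h4
    exact Pool.Agent.H22.CDI.cdMap_injective (h4.trans h3.symm)
  · exact ⟨0, fun w => le_refl _, fun lt h => absurd ⟨lt, h⟩ hex⟩

end Pool.H51.MV.CompleteCdIndex
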